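import Pool.Agent.U293.FC.Pid
import Pool.Agent.U293.GE.Main

/-!
# Automorphisms of `A[z][x, y]` over `A[z]` for algebraic algebras `A`
-/

set_option autoImplicit false

namespace Pool.Agent.U293.FC

open MvPolynomial Pool.Agent.U293.PA Pool.Agent.U293.EP
open Pool.Agent.Y110.FJ (ClosedE)
open Pool.Agent.N509.TX (AcylF of_fg C_stab)

variable {C : ∀ (G : Type) [Group G], Prop}

/-- products of homomorphisms to groups in the class -/
theorem exists_prod (hC : ClosedE C) {G : Type} [Group G] {κ : Type} (N : κ → Subgroup G)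
    (s : Finset κ) : (∀ i ∈ s, ∃ (P : Type) (_ : Group P) (f : G →* P), C P ∧ f.ker ≤ N i) →
    ∃ (P : Type) (_ : Group P) (f : G →* P), C P ∧ f.ker ≤ ⨅ i ∈ s, N i := by
  classical
  induction s using Finset.induction_on with
  | empty =>
    intro _
    exact ⟨Multiplicative ℤ, inferInstance, 1, hC.base.int, by simp⟩
  | insert p s hps ih =>
    intro h
    obtain ⟨P, _, f, hP, hf⟩ := ih fun i hi => h i (Finset.mem_insert_of_mem hi)
    obtain ⟨Q, _, g, hQ, hg⟩ := h p (Finset.mem_insert_self _ _)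
    refine ⟨P × Q, inferInstance, f.prod g, hC.base.prod _ _ hP hQ, ?_⟩
    rw [Finset.iInf_insert]
    intro x hx
    have h1 : (f x, g x) = (1 : P × Q) := (MonoidHom.mem_ker).1 hx
    exact ⟨hg ((MonoidHom.mem_ker).2 (congrArg Prod.snd h1)),
      hf ((MonoidHom.mem_ker).2 (congrArg Prod.fst h1))⟩

/-- polynomial rings over fields -/
theorem C_poly_field (hC : ClosedE C) (hAc : AcylF C)
    (hS : ∀ (G : Type) [Group G], Group.IsSolvable G → C G) (k : Type) [Field k] [CharZero k]
    (hk : ∀ n : ℕ, C (Matrix.GeneralLinearGroup (Fin n) k)) : C (An (Fin 2) (Polynomial k)) := by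
  refine main_pid hC hAc hS (Polynomial k) ?_
  have h1 := GE.main (R := Polynomial k) hC hAc hS hk (GE.isDegree_poly (K := k))
  have h2 : GE.subA k (Polynomial k) ⊔ GE.subB k (Polynomial k) = ⊤ := by
    rw [eq_top_iff]
    exact fun g _ => GE.euclid g
  rw [h2] at h1
  exact hC.base.of_injective _ _ (Subgroup.topEquiv (G := GE.G2 (Polynomial k))).symm.toMonoidHom
    (Subgroup.topEquiv (G := GE.G2 (Polynomial k))).symm.injective h1

variable {F : Type} [Field F] [CharZero F]

theorem alg_frac (B : Type) [CommRing B] [IsDomain B] [Algebra F B] [Algebra.IsAlgebraic F B] :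
    Algebra.IsAlgebraic F (FractionRing B) := by
  refine ⟨fun x => ?_⟩
  obtain ⟨a, b, _, rfl⟩ := IsFractionRing.div_surjective (A := B) x
  have h : ∀ a : B, IsAlgebraic F (algebraMap B (FractionRing B) a) := fun a =>
    (Algebra.IsAlgebraic.isAlgebraic (R := F) a).algebraMap
  rw [div_eq_mul_inv]
  exact (h a).mul (h b).inv

theorem C_noeth (hC : ClosedE C) (hAc : AcylF C)
    (hS : ∀ (G : Type) [Group G], Group.IsSolvable G → C G)
    (hF : ∀ n : ℕ, C (Matrix.GeneralLinearGroup (Fin n) F)) (A : Type) [CommRing A] [Algebra F A]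
    [Algebra.IsAlgebraic F A] [IsNoetherianRing A] : C (An (Fin 2) (Polynomial A)) := by
  classical
  have hmf := minimalPrimes.finite_of_isNoetherianRing A
  let J : Ideal A → Ideal (Polynomial A) := fun p => p.map Polynomial.C
  have hJ : ∀ (p : Ideal A) (f : Polynomial A), f ∈ J p ↔ ∀ n, f.coeff n ∈ p := fun p f =>
    Ideal.mem_map_C_iff
  have h1 : ∀ p ∈ hmf.toFinset, ∃ (P : Type) (_ : Group P) (f : An (Fin 2) (Polynomial A) →* P),
      C P ∧ f.ker ≤ (bc (σ := Fin 2) (Ideal.Quotient.mk (J p))).ker := by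
    intro p hp
    rw [hmf.mem_toFinset] at hp
    have hpp : p.IsPrime := hp.1.1
    have hchar : CharZero (FractionRing (A ⧸ p)) :=
      charZero_of_injective_algebraMap (algebraMap F (FractionRing (A ⧸ p))).injective
    have halg0 : Algebra.IsAlgebraic F (A ⧸ p) := by
      refine ⟨fun x => ?_⟩
      obtain ⟨a, rfl⟩ := Ideal.Quotient.mk_surjective x
      exact (Algebra.IsAlgebraic.isAlgebraic (R := F) a).algHom (Ideal.Quotient.mkₐ F p)
    have halg : Algebra.IsAlgebraic F (FractionRing (A ⧸ p)) := alg_frac (A ⧸ p)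
    let ψ : A →+* FractionRing (A ⧸ p) := (algebraMap (A ⧸ p) (FractionRing (A ⧸ p))).comp
      (Ideal.Quotient.mk p)
    have hψ : ∀ a, ψ a = 0 ↔ a ∈ p := by
      intro a
      change algebraMap (A ⧸ p) (FractionRing (A ⧸ p)) (Ideal.Quotient.mk p a) = 0 ↔ _
      rw [map_eq_zero_iff _ (IsFractionRing.injective (A ⧸ p) (FractionRing (A ⧸ p))),
        Ideal.Quotient.eq_zero_iff_mem]
    refine ⟨An (Fin 2) (Polynomial (FractionRing (A ⧸ p))), inferInstance,
      bc (Polynomial.mapRingHom ψ), ?_, ?_⟩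
    · exact C_poly_field hC hAc hS _ (fun n => GE.GL_alg (F := F) hC hF n)
    · intro g hg
      rw [MonoidHom.mem_ker] at hg ⊢
      refine (bc_ker_congr _ _ ?_ _).1 hg
      rw [Ideal.mk_ker]
      ext f
      rw [RingHom.mem_ker, hJ, Polynomial.coe_mapRingHom, Polynomial.ext_iff]
      refine forall_congr' fun n => ?_
      rw [Polynomial.coeff_map, Polynomial.coeff_zero, hψ]
  obtain ⟨P, _, f, hP, hf⟩ := exists_prod hC
    (fun p : Ideal A => (bc (σ := Fin 2) (Ideal.Quotient.mk (J p))).ker) hmf.toFinset h1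
  refine of_solv_ker hC hS f ?_ hP
  obtain ⟨k, hk⟩ := IsNoetherianRing.isNilpotent_nilradical A
  have hk2 : (J (nilradical A)) ^ (2 ^ k) = ⊥ := by
    have h2 : nilradical A ^ (2 ^ k) ≤ nilradical A ^ k := Ideal.pow_le_pow_right (Nat.lt_two_pow_self).le
    rw [hk] at h2
    change ((nilradical A).map Polynomial.C) ^ (2 ^ k) = ⊥
    rw [← Ideal.map_pow, le_bot_iff.1 h2, Ideal.map_bot]
  have hsol := solvable_ker (σ := Fin 2) k (Polynomial A) (J (nilradical A)) hk2
  refine Group.isSolvable_of_isSolvable_injective (f := Subgroup.inclusion (?_ : f.ker ≤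
    (bc (σ := Fin 2) (Ideal.Quotient.mk (J (nilradical A)))).ker)) (Subgroup.inclusion_injective _)
  intro g hg
  have hg1 := hf hg
  rw [MonoidHom.mem_ker, bc_eq_one_iff, Ideal.mk_ker]
  intro i m
  rw [hJ]
  intro n
  have h3 : nilradical A = sInf (minimalPrimes A) := by
    rw [nilradical, ← Ideal.sInf_minimalPrimes]
    rfl
  rw [h3, Ideal.mem_sInf]
  intro p hp
  rw [Subgroup.mem_iInf] at hg1
  have h4 := hg1 p
  rw [Subgroup.mem_iInf] at h4
  have h5 := h4 (hmf.mem_toFinset.2 hp)
  rw [MonoidHom.mem_ker, bc_eq_one_iff, Ideal.mk_ker] at h5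
  exact (hJ p _).1 (h5 i m) n

/-- **Automorphisms of `A[x, y, z]` over `A[z]`.** -/
theorem main_alg (hC : ClosedE C) (hAc : AcylF C)
    (hS : ∀ (G : Type) [Group G], Group.IsSolvable G → C G)
    (hF : ∀ n : ℕ, C (Matrix.GeneralLinearGroup (Fin n) F)) (A : Type) [CommRing A] [Algebra F A]
    [Algebra.IsAlgebraic F A] : C (An (Fin 2) (Polynomial A)) := by
  classical
  refine of_fg hC fun H hH => ?_
  obtain ⟨Sg, hSg⟩ := (Group.fg_iff_subgroup_fg _).1 hH
  choose S hSfin hS' using fun g : An (Fin 2) (Polynomial A) => defined_over g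
  have hfin : (⋃ g ∈ Sg, S g).Finite := Set.Finite.biUnion Sg.finite_toSet fun g _ => hSfin g
  obtain ⟨Tf, hTf⟩ : ∃ Tf : Finset (Polynomial A), Tf = hfin.toFinset := ⟨_, rfl⟩
  obtain ⟨U, hU⟩ : ∃ U : Finset A, U = Tf.biUnion fun f => f.coeffs := ⟨_, rfl⟩
  obtain ⟨A0, hA0⟩ : ∃ A0 : Subalgebra F A, A0 = Algebra.adjoin F (U : Set A) := ⟨_, rfl⟩
  have hft : Algebra.FiniteType F A0 := by
    rw [hA0]
    exact (Subalgebra.fg_iff_finiteType _).1 ⟨U, rfl⟩
  have hno : IsNoetherianRing A0 := Algebra.FiniteType.isNoetherianRing F A0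
  have halg : Algebra.IsAlgebraic F A0 := by
    refine ⟨fun x => ?_⟩
    exact (isAlgebraic_algHom_iff A0.val Subtype.val_injective).1
      (Algebra.IsAlgebraic.isAlgebraic (R := F) (x : A))
  have hC0 : C (An (Fin 2) (Polynomial A0)) := C_noeth hC hAc hS hF A0
  let j : Polynomial A0 →+* Polynomial A := Polynomial.mapRingHom (A0.val : A0 →+* A)
  have hj : Function.Injective j := Polynomial.map_injective _ Subtype.val_injective
  have hmem : ∀ f ∈ Tf, f ∈ j.range := by
    intro f hf
    have h1 : f ∈ Polynomial.lifts (A0.val : A0 →+* A) := by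
      rw [Polynomial.lifts_iff_coeff_lifts]
      intro n
      by_cases hn : f.coeff n = 0
      · exact ⟨0, by rw [map_zero, hn]⟩
      · refine ⟨⟨f.coeff n, ?_⟩, rfl⟩
        rw [hA0]
        apply Algebra.subset_adjoin
        rw [hU, Finset.mem_coe, Finset.mem_biUnion]
        exact ⟨f, hf, Polynomial.coeff_mem_coeffs hn⟩
    obtain ⟨q, hq⟩ := (Polynomial.mem_lifts f).1 h1
    exact ⟨q, hq⟩
  have hrange : H ≤ (bc (σ := Fin 2) j).range := by
    rw [← hSg, Subgroup.closure_le]
    intro g hg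
    have h2 : S g ⊆ (j.range : Set (Polynomial A)) := by
      intro f hf
      apply hmem
      rw [hTf, Set.Finite.mem_toFinset]
      exact Set.mem_biUnion hg hf
    obtain ⟨g0, hg0⟩ := hS' g j.range h2
    let e : Polynomial A0 ≃+* j.range := RingEquiv.ofBijective j.rangeRestrict
      ⟨fun x y hxy => hj (congrArg Subtype.val hxy), j.rangeRestrict_surjective⟩
    refine ⟨bc (e.symm : j.range →+* Polynomial A0) g0, ?_⟩
    have h4 : j.comp (e.symm : j.range →+* Polynomial A0) = j.range.subtype :=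
      RingHom.ext fun x => congrArg Subtype.val (e.apply_symm_apply x)
    rw [bc_comp, h4, hg0]
  have h3 : C ↥(bc (σ := Fin 2) j).range :=
    hC.base.of_injective _ _ (MonoidHom.ofInjective (bc_injective (σ := Fin 2) hj)).symm.toMonoidHom
      (MonoidHom.ofInjective (bc_injective (σ := Fin 2) hj)).symm.injective hC0
  exact hC.base.of_injective _ _ (Subgroup.inclusion hrange) (Subgroup.inclusion_injective _) h3

/-- automorphisms of `A[x, y]` over `A` -/
theorem main_alg' (hC : ClosedE C) (hAc : AcylF C)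
    (hS : ∀ (G : Type) [Group G], Group.IsSolvable G → C G)
    (hF : ∀ n : ℕ, C (Matrix.GeneralLinearGroup (Fin n) F)) (A : Type) [CommRing A] [Algebra F A]
    [Algebra.IsAlgebraic F A] : C (An (Fin 2) A) :=
  hC.base.of_injective _ _ (bc (σ := Fin 2) (Polynomial.C : A →+* Polynomial A))
    (bc_injective Polynomial.C_injective) (main_alg hC hAc hS hF A)

end Pool.Agent.U293.FC
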