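import Pool.Agent.U293.EP.Jvdk

/-!
# Jung's theorem over arbitrary fields of characteristic zero
-/

set_option autoImplicit false

namespace Pool.Agent.U293.FC

open MvPolynomial Pool.Agent.U293.PA Pool.Agent.U293.EP

variable {K L : Type} [Field K] [Field L] [Algebra K L]

/-- a linear map applied to the coefficients -/
noncomputable def rt (π : L →ₗ[K] K) : Rg L →+ Rg K where
  toFun P := ∑ m ∈ P.support, monomial m (π (P.coeff m))
  map_zero' := by simp
  map_add' P Q := by
    have key : ∀ (P : Rg L) (m : Fin 2 →₀ ℕ),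
        (∑ m ∈ P.support, monomial m (π (P.coeff m))).coeff m = π (P.coeff m) := by
      intro P m
      rw [coeff_sum]
      simp only [coeff_monomial]
      rw [Finset.sum_ite_eq']
      split_ifs with h
      · rfl
      · rw [notMem_support_iff.1 h, map_zero]
    ext m
    rw [coeff_add, key, key, key, coeff_add, map_add]

theorem coeff_rt (π : L →ₗ[K] K) (P : Rg L) (m : Fin 2 →₀ ℕ) :
    (rt π P).coeff m = π (P.coeff m) := by
  change (∑ m ∈ P.support, monomial m (π (P.coeff m))).coeff m = π (P.coeff m)
  rw [coeff_sum]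
  simp only [coeff_monomial]
  rw [Finset.sum_ite_eq']
  split_ifs with h
  · rfl
  · rw [notMem_support_iff.1 h, map_zero]

theorem dg_rt (π : L →ₗ[K] K) (P : Rg L) : dg (rt π P) ≤ dg P := by
  unfold dg totalDegree
  apply Finset.sup_mono
  intro m hm
  rw [mem_support_iff, coeff_rt] at hm
  rw [mem_support_iff]
  intro h
  rw [h, map_zero] at hm
  exact hm rfl

theorem rt_C_mul (π : L →ₗ[K] K) (c : L) (V : Rg K) :
    rt π (C c * map (algebraMap K L) V) = C (π c) * V := by
  ext m
  rw [coeff_rt, coeff_C_mul, coeff_map, coeff_C_mul, mul_comm c, ← Algebra.smul_def, map_smul,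
    smul_eq_mul, mul_comm]

theorem rt_map {π : L →ₗ[K] K} (hπ : π 1 = 1) (V : Rg K) : rt π (map (algebraMap K L) V) = V := by
  have := rt_C_mul π 1 V
  rwa [C_1, one_mul, hπ, C_1, one_mul] at this

theorem rt_C (π : L →ₗ[K] K) (c : L) : rt π (C c) = C (π c) := by
  have := rt_C_mul π c 1
  rwa [map_one, mul_one, mul_one] at this

/-- a linear map applied to the coefficients -/
noncomputable def rp (π : L →ₗ[K] K) (p : Polynomial L) : Polynomial K :=
  ∑ i ∈ Finset.range (p.natDegree + 1), Polynomial.C (π (p.coeff i)) * Polynomial.X ^ i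

theorem rt_aeval (π : L →ₗ[K] K) (p : Polynomial L) (U : Rg K) :
    rt π (Polynomial.aeval (map (algebraMap K L) U) p) = Polynomial.aeval U (rp π p) := by
  rw [Polynomial.aeval_eq_sum_range, map_sum, rp, map_sum]
  apply Finset.sum_congr rfl
  intro i _
  rw [← map_pow, MvPolynomial.smul_eq_C_mul, rt_C_mul, map_mul, Polynomial.aeval_C, map_pow,
    Polynomial.aeval_X]
  rfl

theorem dg_map (P : Rg K) : dg (map (algebraMap K L) P) = dg P := by
  unfold dg totalDegree
  rw [support_map_of_injective _ (algebraMap K L).injective]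

/-- the elementary affine automorphism -/
noncomputable def eA (d f : K) : Au K :=
  AlgEquiv.ofAlgHom (aeval ![X 1, X 0 + C d * X 1 + C f]) (aeval ![X 1 - C d * X 0 - C f, X 0])
    (by
      apply MvPolynomial.algHom_ext
      intro i
      fin_cases i
      · simp [algHom_C]
        ring
      · simp)
    (by
      apply MvPolynomial.algHom_ext
      intro i
      fin_cases i
      · simp
      · simp [algHom_C]
        ring)

theorem eA_0 (d f : K) : eA d f (X 0) = X 1 := by
  change aeval ![X 1, X 0 + C d * X 1 + C f] (X 0) = _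
  rw [aeval_X]
  rfl

theorem eA_1 (d f : K) : eA d f (X 1) = X 0 + C d * X 1 + C f := by
  change aeval ![X 1, X 0 + C d * X 1 + C f] (X 1) = _
  rw [aeval_X]
  rfl

theorem eA_mem (d f : K) : eA d f ∈ affG (⊤ : Subfield K) :=
  aff_top.2 ⟨0, 1, 1, d, 0, f, by rw [eA_0]; simp, by rw [eA_1]; simp⟩

/-- the elementary triangular automorphism -/
noncomputable def eB (p : Polynomial K) : Au K :=
  AlgEquiv.ofAlgHom (aeval ![X 0 + Polynomial.aeval (X 1) p, X 1])
    (aeval ![X 0 - Polynomial.aeval (X 1) p, X 1])
    (by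
      apply MvPolynomial.algHom_ext
      intro i
      fin_cases i
      · simp [← Polynomial.aeval_algHom_apply]
      · simp)
    (by
      apply MvPolynomial.algHom_ext
      intro i
      fin_cases i
      · simp [← Polynomial.aeval_algHom_apply]
      · simp)

theorem eB_0 (p : Polynomial K) : eB p (X 0) = X 0 + Polynomial.aeval (X 1) p := by
  change aeval ![X 0 + Polynomial.aeval (X 1) p, X 1] (X 0) = _
  rw [aeval_X]
  rfl

theorem eB_1 (p : Polynomial K) : eB p (X 1) = X 1 := by
  change aeval ![X 0 + Polynomial.aeval (X 1) p, X 1] (X 1) = _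
  rw [aeval_X]
  rfl

theorem eB_mem (p : Polynomial K) : eB p ∈ triG (⊤ : Subfield K) :=
  tri_top.2 ⟨1, 1, 0, p, by rw [eB_0]; simp, by rw [eB_1]; simp⟩

theorem bc_au_X (g : Au K) (i : Fin 2) :
    (bc (algebraMap K L) g : Au L) (X i) = map (algebraMap K L) (g (X i)) := bc_X _ _ _

theorem mx_bc (g : Au K) : mx (bc (algebraMap K L) g : Au L) = mx g := by
  unfold mx
  rw [bc_au_X, bc_au_X, dg_map, dg_map]

/-- **descent**: an automorphism which is tame over an extension field is tame -/
theorem descent (n : ℕ) : ∀ g : Au K, mx g ≤ n → (bc (algebraMap K L) g : Au L) ∈ Tame L →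
    g ∈ Tame K := by
  classical
  obtain ⟨π, hπ⟩ : ∃ π : L →ₗ[K] K, π 1 = 1 := by
    obtain ⟨π, hπ⟩ := (Algebra.linearMap K L).exists_leftInverse_of_injective
      (LinearMap.ker_eq_bot.2 (algebraMap K L).injective)
    refine ⟨π, ?_⟩
    have := congrArg (fun f : K →ₗ[K] K => f 1) hπ
    simpa using this
  induction n with
  | zero =>
    intro g hg _
    have := mx_pos g
    omega
  | succ n ih =>
    intro g hg hT
    obtain ⟨ĝ, hĝ⟩ : ∃ ĝ : Au L, ĝ = (bc (algebraMap K L) g : Au L) := ⟨_, rfl⟩
    have hĝX : ∀ i, ĝ (X i) = map (algebraMap K L) (g (X i)) := fun i => by rw [hĝ, bc_au_X]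
    rw [← hĝ] at hT
    have hred := red_all (pair_of (⊤ : Subfield L)) hT
    cases hred with
    | base _ hA =>
      obtain ⟨a, b, c, d, e, f, h0, h1⟩ := aff_top.1 hA
      apply Subgroup.mem_sup_left
      refine aff_top.2 ⟨π a, π b, π c, π d, π e, π f, ?_, ?_⟩
      · rw [← rt_map hπ (g (X 0)), ← hĝX, h0, map_add, map_add, ← map_X (algebraMap K L) 0,
          ← map_X (algebraMap K L) 1, rt_C_mul, rt_C_mul, rt_C]
      · rw [← rt_map hπ (g (X 1)), ← hĝX, h1, map_add, map_add, ← map_X (algebraMap K L) 0,
          ← map_X (algebraMap K L) 1, rt_C_mul, rt_C_mul, rt_C]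
    | stA _ a ha hlt _ =>
      -- a rational affine automorphism with the same effect
      obtain ⟨a', ha', hlt'⟩ : ∃ a' ∈ affG (⊤ : Subfield K), dg ((g * a') (X 1)) < mx g := by
        by_cases h1 : dg (g (X 1)) < mx g
        · exact ⟨1, one_mem _, by rwa [mul_one]⟩
        · obtain ⟨u, v, c, d, e, f, e0, e1⟩ := aff_top.1 ha
          have e2 : (ĝ * a) (X 1) = C c * ĝ (X 0) + C d * ĝ (X 1) + C f := by
            rw [AlgEquiv.mul_apply, e1, map_add, map_add, map_mul, map_mul, gC, gC, gC]
          have hc : c ≠ 0 := by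
            rintro rfl
            have hd : d ≠ 0 := by
              rintro rfl
              have := det_ne e0 e1
              simp at this
            rw [e2, C_0, zero_mul, zero_add] at hlt
            apply h1
            have h3 : dg (ĝ (X 1)) ≤ dg (C d * ĝ (X 1) + C f) := by
              have h4 : C d * ĝ (X 1) = (C d * ĝ (X 1) + C f) + C (-f) := by
                rw [C_neg]
                ring
              have h5 := dg_add_le (C d * ĝ (X 1) + C f) (C (-f))
              rw [← h4, dg_Cmul hd, dg_C] at h5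
              simpa using h5
            have h6 := lt_of_le_of_lt h3 hlt
            rw [hĝ, mx_bc, bc_au_X, dg_map] at h6
            exact h6
          refine ⟨eA (π (c⁻¹ * d)) (π (c⁻¹ * f)), eA_mem _ _, ?_⟩
          have e3 : (g * eA (π (c⁻¹ * d)) (π (c⁻¹ * f))) (X 1) = rt π (C c⁻¹ * (ĝ * a) (X 1)) := by
            have h7 : C c⁻¹ * (ĝ * a) (X 1) = ĝ (X 0) + C (c⁻¹ * d) * ĝ (X 1) + C (c⁻¹ * f) := by
              have h8 : (C c⁻¹ * C c : Rg L) = 1 := by rw [← C_mul, inv_mul_cancel₀ hc, C_1]
              rw [e2, C_mul, C_mul]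
              linear_combination (ĝ (X 0)) * h8
            rw [h7, hĝX, hĝX, map_add, map_add, rt_map hπ, rt_C_mul, rt_C, AlgEquiv.mul_apply, eA_1,
              map_add, map_add, map_mul, gC, gC]
          rw [e3]
          refine lt_of_le_of_lt (dg_rt _ _) (lt_of_le_of_lt (dg_Cmul_le _ _) ?_)
          rw [← mx_bc (L := L) g, ← hĝ]
          exact hlt
      -- the next element
      obtain ⟨g1, hg1⟩ : ∃ g1 : Au K, g1 = g * a' := ⟨_, rfl⟩
      have hT1 : (bc (algebraMap K L) g1 : Au L) ∈ Tame L := by
        have h2 : (bc (algebraMap K L) a' : Au L) ∈ Tame L := by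
          apply Subgroup.mem_sup_left
          obtain ⟨u, v, c, d, e, f, e0, e1⟩ := aff_top.1 ha'
          refine aff_top.2 ⟨algebraMap K L u, algebraMap K L v, algebraMap K L c, algebraMap K L d,
            algebraMap K L e, algebraMap K L f, ?_, ?_⟩
          · rw [bc_au_X, e0]
            simp
          · rw [bc_au_X, e1]
            simp
        rw [hg1, map_mul]
        rw [hĝ] at hT
        exact mul_mem hT h2
      rw [← hg1] at hlt'
      obtain ⟨ĝ1, hĝ1⟩ : ∃ ĝ1 : Au L, ĝ1 = (bc (algebraMap K L) g1 : Au L) := ⟨_, rfl⟩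
      have hĝ1X : ∀ i, ĝ1 (X i) = map (algebraMap K L) (g1 (X i)) := fun i => by rw [hĝ1, bc_au_X]
      rw [← hĝ1] at hT1
      have hred1 := redFT (pair_of (⊤ : Subfield L)) (red_all (pair_of (⊤ : Subfield L)) hT1)
      cases hred1 with
      | stB _ b hb hle _ =>
        obtain ⟨u, v, c, p, e0, e1⟩ := tri_top.1 hb
        have hu : u ≠ 0 := (tri_ne e0 e1).1
        obtain ⟨p', hp'⟩ : ∃ p' : Polynomial L, p' = Polynomial.C u⁻¹ * p := ⟨_, rfl⟩
        have e2 : C u⁻¹ * (ĝ1 * b) (X 0) = ĝ1 (X 0) + Polynomial.aeval (ĝ1 (X 1)) p' := by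
          have h8 : (C u⁻¹ * C u : Rg L) = 1 := by rw [← C_mul, inv_mul_cancel₀ hu, C_1]
          rw [AlgEquiv.mul_apply, e0, map_add, map_mul, gC, g_aeval, hp', map_mul,
            Polynomial.aeval_C, MvPolynomial.algebraMap_eq]
          linear_combination (ĝ1 (X 0)) * h8
        have e3 : (g1 * eB (rp π p')) (X 0) = rt π (C u⁻¹ * (ĝ1 * b) (X 0)) := by
          rw [e2, hĝ1X, hĝ1X, map_add, rt_map hπ, rt_aeval, AlgEquiv.mul_apply, eB_0, map_add,
            g_aeval]
        have e4 : (g1 * eB (rp π p')) (X 1) = g1 (X 1) := by rw [AlgEquiv.mul_apply, eB_1]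
        have h9 : dg ((g1 * eB (rp π p')) (X 0)) ≤ dg (g1 (X 1)) := by
          rw [e3]
          refine (dg_rt _ _).trans ((dg_Cmul_le _ _).trans ?_)
          rw [hĝ1, bc_au_X, dg_map] at hle
          rw [hĝ1]
          exact hle
        have h10 : mx (g1 * eB (rp π p')) ≤ n := by
          have h11 : mx (g1 * eB (rp π p')) ≤ dg (g1 (X 1)) := by
            refine max_le h9 ?_
            rw [e4]
          omega
        have h12 : g1 * eB (rp π p') ∈ Tame K := by
          refine ih _ h10 ?_
          rw [map_mul]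
          refine mul_mem (by rw [← hĝ1]; exact hT1) ?_
          apply Subgroup.mem_sup_right
          refine tri_top.2 ⟨1, 1, 0, (rp π p').map (algebraMap K L), ?_, ?_⟩
          · rw [bc_au_X, eB_0, map_add, map_X, C_1, one_mul]
            congr 1
            rw [Polynomial.aeval_map_algebraMap]
            have h13 : ∀ q : Polynomial K, map (algebraMap K L) (Polynomial.aeval (X 1 : Rg K) q) =
                Polynomial.aeval (X 1 : Rg L) q := by
              intro q
              rw [Polynomial.aeval_eq_sum_range, map_sum, Polynomial.aeval_eq_sum_range]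
              apply Finset.sum_congr rfl
              intro i _
              rw [MvPolynomial.smul_eq_C_mul, map_mul, map_C, map_pow, map_X, Algebra.smul_def,
                IsScalarTower.algebraMap_apply K L (Rg L), MvPolynomial.algebraMap_eq]
            exact h13 _
          · rw [bc_au_X, eB_1, map_X]
            simp
        have h14 : g = g1 * eB (rp π p') * (eB (rp π p'))⁻¹ * a'⁻¹ := by
          rw [hg1]
          group
        rw [h14]
        exact mul_mem (mul_mem h12 (inv_mem (Subgroup.mem_sup_right (eB_mem _))))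
          (inv_mem (Subgroup.mem_sup_left ha'))

/-- Jung's theorem over all fields of characteristic zero -/
theorem tame_all (K : Type) [Field K] [CharZero K] : Tame K = ⊤ := by
  rw [eq_top_iff]
  intro g _
  have : CharZero (AlgebraicClosure K) :=
    charZero_of_injective_algebraMap (algebraMap K (AlgebraicClosure K)).injective
  refine descent (L := AlgebraicClosure K) (mx g) g le_rfl ?_
  rw [tame_top]
  exact Subgroup.mem_top _

end Pool.Agent.U293.FC
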