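import Pool.Agent.U293.FC.Desc
import Pool.Agent.Y529.FJ.Ext

/-!
# Lattices of automorphism groups over principal ideal domains
-/

set_option autoImplicit false

namespace Pool.Agent.U293.FC

open MvPolynomial Pool.Agent.U293.PA Pool.Agent.U293.EP
open Pool.Agent.Y110.FJ (ClosedE)

/-- extensions with solvable kernel -/
theorem of_solv_ker {C : ∀ (G : Type) [Group G], Prop} (hC : ClosedE C)
    (hS : ∀ (G : Type) [Group G], Group.IsSolvable G → C G) {G P : Type} [Group G] [Group P]
    (f : G →* P) (hker : Group.IsSolvable f.ker) (hP : C P) : C G := by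
  have hQ : C ↥f.range := hC.base.of_injective _ _ f.range.subtype f.range.subtype_injective hP
  refine hC.ext G ↥f.range f.rangeRestrict f.rangeRestrict_surjective hQ ?_
  rintro V ⟨c, hcV, hrel⟩
  have hle : (Subgroup.zpowers c).comap f.rangeRestrict ≤ V.comap f.rangeRestrict :=
    Subgroup.comap_mono (by rwa [Subgroup.zpowers_le])
  refine Pool.Agent.Y529.FJ.up hC.base hle ?_ (hS _ ?_)
  · rw [Subgroup.relIndex_comap, Subgroup.map_comap_eq_self_of_surjective f.rangeRestrict_surjective]
    exact hrel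
  · let φ : ↥((Subgroup.zpowers c).comap f.rangeRestrict) →* ↥(Subgroup.zpowers c) :=
      (f.rangeRestrict.comp (Subgroup.subtype _)).codRestrict _ (fun x => x.2)
    have h1 : Group.IsSolvable φ.ker := by
      let ψ : φ.ker →* f.ker := ((Subgroup.subtype _).comp (Subgroup.subtype φ.ker)).codRestrict _
        (fun x => by
          have h2 := (MonoidHom.mem_ker).1 x.2
          have h3 : (f.rangeRestrict ((x : ↥((Subgroup.zpowers c).comap f.rangeRestrict)) : G)) = 1 :=
            congrArg Subtype.val h2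
          have h4 := congrArg Subtype.val h3
          rw [MonoidHom.mem_ker]
          exact h4)
      refine Group.isSolvable_of_isSolvable_injective (f := ψ) ?_
      intro x y hxy
      have h5 := congrArg Subtype.val hxy
      exact Subtype.ext (Subtype.ext h5)
    have h2 : Group.IsSolvable ↥(Subgroup.zpowers c) := Group.isSolvable_of_comm fun a b => by
      obtain ⟨a, m, rfl⟩ := a
      obtain ⟨b, n, rfl⟩ := b
      apply Subtype.ext
      change c ^ m * c ^ n = c ^ n * c ^ m
      rw [← zpow_add, ← zpow_add, add_comm]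
    exact Group.isSolvable_of_ker_le_range φ.ker.subtype φ (by rw [Subgroup.range_subtype])

variable {K : Type} [Field K]

/-- linear forms -/
noncomputable def lf (u : Fin 2 → K) : Rg K := C (u 0) * X 0 + C (u 1) * X 1

theorem coeff_lf (u : Fin 2 → K) (c : K) (j : Fin 2) :
    (lf u + C c).coeff (Finsupp.single j 1) = u j := by
  have h0 : ∀ k : Fin 2, (0 : Fin 2 →₀ ℕ) ≠ Finsupp.single k 1 := by
    intro k h
    have := congrArg (fun z => z k) h
    simp at this
  have h1 : Finsupp.single (0 : Fin 2) (1 : ℕ) ≠ Finsupp.single 1 1 := by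
    intro h
    have := congrArg (fun z => z 0) h
    simp at this
  unfold lf
  rw [coeff_add, coeff_add, coeff_C_mul, coeff_C_mul, coeff_C, if_neg (h0 j), add_zero]
  fin_cases j
  · simp [coeff_X, h1.symm]
  · simp [coeff_X, h1]

theorem lf_add (u v : Fin 2 → K) : lf (u + v) = lf u + lf v := by
  unfold lf
  simp only [Pi.add_apply, C_add]
  ring

theorem lf_smul (c : K) (u : Fin 2 → K) : lf (c • u) = C c * lf u := by
  unfold lf
  simp only [Pi.smul_apply, smul_eq_mul, C_mul]
  ring

theorem lf_eq {u v : Fin 2 → K} {c c' : K} (h : lf u + C c = lf v + C c') : u = v := by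
  funext j
  rw [← coeff_lf u c j, h, coeff_lf]

/-- the linear part -/
noncomputable def lam (a : Au K) : Module.End K (Fin 2 → K) where
  toFun u := fun j => (a (lf u)).coeff (Finsupp.single j 1)
  map_add' u v := by
    funext j
    rw [lf_add, map_add, coeff_add]
    rfl
  map_smul' c u := by
    funext j
    rw [lf_smul, map_mul, gC, coeff_C_mul]
    rfl

theorem lam_apply (a : Au K) (u : Fin 2 → K) (j : Fin 2) :
    lam a u j = (a (lf u)).coeff (Finsupp.single j 1) := rfl

theorem aff_lf {a : Au K} (ha : a ∈ affG (⊤ : Subfield K)) (u : Fin 2 → K) :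
    ∃ c, a (lf u) = lf (lam a u) + C c := by
  obtain ⟨p, q, r, s, e, f, h0, h1⟩ := aff_top.1 ha
  have h2 : a (lf u) = lf ![u 0 * p + u 1 * r, u 0 * q + u 1 * s] + C (u 0 * e + u 1 * f) := by
    unfold lf
    rw [map_add, map_mul, map_mul, gC, gC, h0, h1]
    simp only [Matrix.cons_val_zero, Matrix.cons_val_one, C_add, C_mul]
    ring
  have h3 : lam a u = ![u 0 * p + u 1 * r, u 0 * q + u 1 * s] := by
    funext j
    rw [lam_apply, h2, coeff_lf]
  exact ⟨_, by rw [h3]; exact h2⟩

theorem lam_mul {a b : Au K} (ha : a ∈ affG (⊤ : Subfield K)) (hb : b ∈ affG (⊤ : Subfield K)) :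
    lam (a * b) = lam a * lam b := by
  apply LinearMap.ext
  intro u
  obtain ⟨c, hc⟩ := aff_lf hb u
  obtain ⟨c', hc'⟩ := aff_lf ha (lam b u)
  funext j
  rw [lam_apply, AlgEquiv.mul_apply, hc, map_add, gC, hc', add_assoc, ← C_add, coeff_lf]
  rfl

theorem lam_one : lam (1 : Au K) = 1 := by
  apply LinearMap.ext
  intro u
  funext j
  rw [lam_apply]
  change (lf u).coeff _ = u j
  have := coeff_lf u 0 j
  rwa [C_0, add_zero] at this

/-- automorphisms with trivial linear part commute -/
theorem lam_comm {a b : Au K} (ha : a ∈ affG (⊤ : Subfield K)) (hb : b ∈ affG (⊤ : Subfield K))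
    (ha1 : lam a = 1) (hb1 : lam b = 1) : a * b = b * a := by
  have h : ∀ i : Fin 2, (X i : Rg K) = lf (Pi.single i 1) := by
    intro i
    unfold lf
    fin_cases i
    · simp
    · simp
  have key : ∀ {a : Au K}, a ∈ affG (⊤ : Subfield K) → lam a = 1 → ∀ i : Fin 2,
      ∃ c, a (X i) = X i + C c := by
    intro a ha h1 i
    obtain ⟨c, hc⟩ := aff_lf ha (Pi.single i 1)
    rw [h1] at hc
    refine ⟨c, ?_⟩
    rw [h i, hc]
    rfl
  have h2 : ∀ i, (a * b) (X i) = (b * a) (X i) := by
    intro i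
    obtain ⟨c, hc⟩ := key ha ha1 i
    obtain ⟨d, hd⟩ := key hb hb1 i
    rw [AlgEquiv.mul_apply, AlgEquiv.mul_apply, hc, hd, map_add, map_add, gC, gC, hc, hd]
    ring
  exact ext_of (h2 0) (h2 1)

section

variable {D : Type} [CommRing D] [Algebra D K]

/-- the image of `D` -/
def Dh (D K : Type) [CommRing D] [Field K] [Algebra D K] : Subring K := (algebraMap D K).range

theorem C_mem (r : D) : (C (algebraMap D K r) : Rg K) ∈ SR (Dh D K) := by
  rw [mem_SR]
  intro m
  rw [coeff_C]
  split_ifs
  · exact ⟨r, rfl⟩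
  · exact zero_mem _

/-- the lattice -/
noncomputable def LL (D : Type) [CommRing D] [Algebra D K] (g : Au K) : Submodule D (Fin 2 → K) where
  carrier := {u | ∃ c, g (lf u) + C c ∈ SR (Dh D K)}
  add_mem' := by
    rintro u v ⟨c, hc⟩ ⟨d, hd⟩
    refine ⟨c + d, ?_⟩
    have : g (lf (u + v)) + C (c + d) = (g (lf u) + C c) + (g (lf v) + C d) := by
      rw [lf_add, map_add, C_add]
      ring
    rw [this]
    exact add_mem hc hd
  zero_mem' := by
    refine ⟨0, ?_⟩
    have : g (lf 0) + C 0 = 0 := by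
      unfold lf
      simp
    rw [this]
    exact zero_mem _
  smul_mem' := by
    rintro r u ⟨c, hc⟩
    refine ⟨algebraMap D K r * c, ?_⟩
    have : g (lf (r • u)) + C (algebraMap D K r * c) = C (algebraMap D K r) * (g (lf u) + C c) := by
      rw [← algebraMap_smul K r u, lf_smul, map_mul, gC, C_mul]
      ring
    rw [this]
    exact mul_mem (C_mem r) hc

theorem mem_LL {g : Au K} {u : Fin 2 → K} :
    u ∈ LL D g ↔ ∃ c, g (lf u) + C c ∈ SR (Dh D K) := Iff.rfl

/-- the group acting on the lattice -/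
noncomputable def SG (D : Type) [CommRing D] [Algebra D K] (g : Au K) : Subgroup (Au K) :=
  DR (Dh D K) ⊓ (affG (⊤ : Subfield K)).comap (MulAut.conj g⁻¹).toMonoidHom

theorem SG_aff {g h : Au K} (hh : h ∈ SG D g) : g⁻¹ * h * g ∈ affG (⊤ : Subfield K) := by
  have h1 : MulAut.conj g⁻¹ h ∈ affG (⊤ : Subfield K) := hh.2
  rw [MulAut.conj_apply, inv_inv] at h1
  exact h1

theorem lam_LL {g h : Au K} (hh : h ∈ SG D g) {u : Fin 2 → K} (hu : u ∈ LL D g) :
    lam (g⁻¹ * h * g) u ∈ LL D g := by
  obtain ⟨c, hc⟩ := hu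
  have h1 : h (g (lf u) + C c) ∈ SR (Dh D K) := map_SR hh.1.1 hc
  obtain ⟨d, hd⟩ := aff_lf (SG_aff hh) u
  refine ⟨d + c, ?_⟩
  have h2 : h (g (lf u)) = g ((g⁻¹ * h * g) (lf u)) := by
    rw [AlgEquiv.mul_apply, AlgEquiv.mul_apply, ap_inv]
  rw [map_add, gC, h2, hd, map_add, gC] at h1
  rw [C_add, ← add_assoc]
  exact h1

/-- the representation -/
noncomputable def rho (D : Type) [CommRing D] [Algebra D K] (g : Au K) :
    SG D g →* Module.End D (LL D g) where
  toFun h := ((lam (g⁻¹ * (h : Au K) * g)).restrictScalars D).restrict fun _ hu => lam_LL h.2 hu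
  map_one' := by
    apply LinearMap.ext
    intro u
    apply Subtype.ext
    change lam (g⁻¹ * ((1 : SG D g) : Au K) * g) (u : Fin 2 → K) = u
    have : g⁻¹ * ((1 : SG D g) : Au K) * g = 1 := by
      rw [Subgroup.coe_one]
      group
    rw [this, lam_one]
    rfl
  map_mul' x y := by
    apply LinearMap.ext
    intro u
    apply Subtype.ext
    change lam (g⁻¹ * ((x * y : SG D g) : Au K) * g) (u : Fin 2 → K) =
      lam (g⁻¹ * (x : Au K) * g) (lam (g⁻¹ * (y : Au K) * g) (u : Fin 2 → K))
    have : g⁻¹ * ((x * y : SG D g) : Au K) * g = (g⁻¹ * (x : Au K) * g) * (g⁻¹ * (y : Au K) * g) := by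
      rw [Subgroup.coe_mul]
      group
    rw [this, lam_mul (SG_aff x.2) (SG_aff y.2)]
    rfl

theorem rho_apply (g : Au K) (h : SG D g) (u : LL D g) :
    ((rho D g h u : LL D g) : Fin 2 → K) = lam (g⁻¹ * (h : Au K) * g) (u : Fin 2 → K) := rfl

variable [IsDomain D] [IsPrincipalIdealRing D] [IsFractionRing D K]

/-- multiples of all vectors are in the lattice -/
theorem exists_mul_mem (g : Au K) : ∃ d : D, d ≠ 0 ∧ ∀ i : Fin 2, d • (Pi.single i 1 : Fin 2 → K) ∈ LL D g := by
  classical
  obtain ⟨⟨d, hd⟩, hb⟩ := IsLocalization.exist_integer_multiples_of_finset (nonZeroDivisors D)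
    ((g (X 0)).coeffs ∪ (g (X 1)).coeffs)
  have key : ∀ P : Rg K, P.coeffs ⊆ (g (X 0)).coeffs ∪ (g (X 1)).coeffs →
      C (algebraMap D K d) * P ∈ SR (Dh D K) := by
    intro P hP
    rw [mem_SR]
    intro m
    rw [coeff_C_mul]
    by_cases hm : P.coeff m = 0
    · rw [hm, mul_zero]
      exact zero_mem _
    · obtain ⟨r, hr⟩ := hb _ (hP (MvPolynomial.mem_coeffs_iff.2 ⟨m, mem_support_iff.2 hm, rfl⟩))
      refine ⟨r, ?_⟩
      rw [hr, Algebra.smul_def]
  refine ⟨d, nonZeroDivisors.ne_zero hd, fun i => ⟨0, ?_⟩⟩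
  have h1 : lf (d • (Pi.single i 1 : Fin 2 → K)) = C (algebraMap D K d) * X i := by
    rw [← algebraMap_smul K d, lf_smul]
    congr 1
    unfold lf
    fin_cases i
    · simp
    · simp
  rw [h1, map_mul, gC, C_0, add_zero]
  apply key
  fin_cases i
  · exact Finset.subset_union_left
  · exact Finset.subset_union_right

theorem span_LL (g : Au K) : Submodule.span K (LL D g : Set (Fin 2 → K)) = ⊤ := by
  obtain ⟨d, hd, h⟩ := exists_mul_mem (D := D) g
  rw [eq_top_iff]
  intro v _
  have h1 : v = ∑ i, ((algebraMap D K d)⁻¹ * v i) • (d • (Pi.single i 1 : Fin 2 → K)) := by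
    have hd' : algebraMap D K d ≠ 0 := by
      rw [Ne, FaithfulSMul.algebraMap_eq_zero_iff]
      exact hd
    funext j
    rw [Finset.sum_apply, Fin.sum_univ_two]
    simp only [Pi.smul_apply, ← algebraMap_smul K d, smul_eq_mul]
    fin_cases j
    · simp
      field_simp
    · simp
      field_simp
  rw [h1]
  exact Submodule.sum_mem _ fun i _ => Submodule.smul_mem _ _ (Submodule.subset_span (h i))

theorem fg_LL (g : Au K) : (LL D g).FG := by
  classical
  let N0 : Submodule D K := LinearMap.range (Algebra.linearMap D K)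
  have hN0 : IsNoetherian D N0 := by
    exact isNoetherian_of_surjective (Algebra.linearMap D K).rangeRestrict
      (LinearMap.range_eq_top.2 (Algebra.linearMap D K).surjective_rangeRestrict)
  let I : Type := {s : Fin 2 →₀ ℕ // s ∈ ((g (X 0)).support ∪ (g (X 1)).support).erase 0}
  let θ : ∀ s : Fin 2 →₀ ℕ, (Fin 2 → K) →ₗ[D] K := fun s =>
    { toFun := fun u => (g (lf u)).coeff s
      map_add' := fun u v => by rw [lf_add, map_add, coeff_add]
      map_smul' := fun r u => by
        rw [← algebraMap_smul K r u, lf_smul, map_mul, gC, coeff_C_mul, Algebra.smul_def]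
        rfl }
  let Θ : LL D g →ₗ[D] (I → N0) := LinearMap.pi fun s =>
    ((θ s.1).comp (LL D g).subtype).codRestrict N0 (by
      rintro ⟨u, c, hc⟩
      have h1 := mem_SR.1 hc s.1
      have hs : s.1 ≠ 0 := (Finset.mem_erase.1 s.2).1
      rw [coeff_add, coeff_C, if_neg (Ne.symm hs), add_zero] at h1
      obtain ⟨r, hr⟩ := h1
      exact ⟨r, hr⟩)
  have hΘ : Function.Injective Θ := by
    rw [injective_iff_map_eq_zero]
    rintro ⟨u, hu⟩ h0
    have h1 : ∀ s : Fin 2 →₀ ℕ, s ≠ 0 → (g (lf u)).coeff s = 0 := by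
      intro s hs
      by_cases hmem : s ∈ (g (X 0)).support ∪ (g (X 1)).support
      · have h2 := congrArg (fun f : I → N0 => ((f ⟨s, Finset.mem_erase.2 ⟨hs, hmem⟩⟩ : N0) : K)) h0
        exact h2
      · rw [Finset.mem_union, not_or, notMem_support_iff, notMem_support_iff] at hmem
        unfold lf
        rw [map_add, map_mul, map_mul, gC, gC, coeff_add, coeff_C_mul, coeff_C_mul, hmem.1, hmem.2,
          mul_zero, mul_zero, add_zero]
    have h3 : g (lf u) = C ((g (lf u)).coeff 0) := by
      ext s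
      rw [coeff_C]
      split_ifs with hs
      · rw [hs]
      · exact h1 s (Ne.symm hs)
    have h4 : lf u = C ((g (lf u)).coeff 0) := by
      apply g.injective
      rw [gC]
      exact h3
    have h5 : u = 0 := by
      refine lf_eq (c := 0) (c' := (g (lf u)).coeff 0) ?_
      rw [C_0, add_zero]
      have h6 : lf (0 : Fin 2 → K) = 0 := by
        unfold lf
        simp
      rw [h6, zero_add]
      exact h4
    exact Subtype.ext h5
  have : Module.Finite D (LL D g) := Module.Finite.of_injective Θ hΘ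
  exact Module.Finite.iff_fg.1 this

theorem basis_LL (g : Au K) : Nonempty (Module.Basis (Fin 2) D (LL D g)) := by
  have h1 : Submodule.IsLattice K (LL D g) := ⟨fg_LL g, span_LL g⟩
  have h2 : FaithfulSMul D K := inferInstance
  have h3 : Module.IsTorsionFree D K := inferInstance
  have h4 : Module.Free D (LL D g) := Submodule.IsLattice.free (K := K) (LL D g)
  have h5 : Module.finrank D (LL D g) = 2 := by
    rw [Submodule.IsLattice.finrank_of_pi (K := K) (LL D g)]
    simp
  exact ⟨Module.finBasisOfFinrankEq D (LL D g) h5⟩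

theorem rho_ker {g : Au K} {h : SG D g} (hh : rho D g h = 1) : lam (g⁻¹ * (h : Au K) * g) = 1 := by
  obtain ⟨d, hd, h1⟩ := exists_mul_mem (D := D) g
  have hd' : algebraMap D K d ≠ 0 := by
    rw [Ne, FaithfulSMul.algebraMap_eq_zero_iff]
    exact hd
  apply LinearMap.pi_ext'
  intro i
  apply LinearMap.ext
  intro c
  have h2 := rho_apply g h ⟨_, h1 i⟩
  rw [hh] at h2
  have h3 : d • (Pi.single i 1 : Fin 2 → K) = lam (g⁻¹ * (h : Au K) * g) (d • Pi.single i 1) := h2
  rw [← algebraMap_smul K d, map_smul] at h3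
  have h4 := smul_right_injective (Fin 2 → K) hd' h3
  have h5 : (Pi.single i c : Fin 2 → K) = c • Pi.single i 1 := by
    rw [← Pi.single_smul', smul_eq_mul, mul_one]
  change lam (g⁻¹ * (h : Au K) * g) (Pi.single i c) = Pi.single i c
  rw [h5, map_smul, ← h4]

theorem C_SG {C : ∀ (G : Type) [Group G], Prop} (hC : ClosedE C)
    (hS : ∀ (G : Type) [Group G], Group.IsSolvable G → C G)
    (hGL : C (Matrix.GeneralLinearGroup (Fin 2) D)) (g : Au K) : C (SG D g) := by
  obtain ⟨b⟩ := basis_LL (D := D) g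
  let e : (Module.End D (LL D g))ˣ ≃* Matrix.GeneralLinearGroup (Fin 2) D :=
    Units.mapEquiv (LinearMap.toMatrixAlgEquiv b).toMulEquiv
  refine of_solv_ker hC hS (e.toMonoidHom.comp (MonoidHom.toHomUnits (rho D g))) ?_ hGL
  have key : ∀ x : (e.toMonoidHom.comp (MonoidHom.toHomUnits (rho D g))).ker,
      lam (g⁻¹ * ((x : SG D g) : Au K) * g) = 1 := by
    intro x
    apply rho_ker
    have h1 : e (MonoidHom.toHomUnits (rho D g) x) = 1 := (MonoidHom.mem_ker).1 x.2
    rw [map_eq_one_iff e e.injective] at h1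
    exact congrArg Units.val h1
  apply Group.isSolvable_of_comm
  intro x y
  apply Subtype.ext
  apply Subtype.ext
  have h1 := lam_comm (SG_aff (x : SG D g).2) (SG_aff (y : SG D g).2) (key x) (key y)
  change ((x : SG D g) : Au K) * ((y : SG D g) : Au K) = ((y : SG D g) : Au K) * ((x : SG D g) : Au K)
  have h2 : ∀ p q : Au K, p * q = g * ((g⁻¹ * p * g) * (g⁻¹ * q * g)) * g⁻¹ := by
    intro p q
    group
  rw [h2, h1, ← h2]

end

end Pool.Agent.U293.FC
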