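import Pool.Agent.U293.FC.Lat
import Pool.Agent.U293.PA.Fin
import Pool.Agent.U293.GE.Fld

/-!
# Automorphisms of `D[x, y]` for principal ideal domains `D`
-/

set_option autoImplicit false

namespace Pool.Agent.U293.FC

open MvPolynomial Pool.Agent.U293.PA Pool.Agent.U293.EP
open Pool.Agent.Y110.FJ (ClosedE)
open Pool.Agent.N509.TX (AcylF of_fg C_stab)

variable {C : ∀ (G : Type) [Group G], Prop}

section

variable {K D : Type} [Field K] [CommRing D] [Algebra D K] [IsDomain D] [IsPrincipalIdealRing D]
  [IsFractionRing D K]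

theorem C_DR [CharZero K] (hC : ClosedE C) (hAc : AcylF C)
    (hS : ∀ (G : Type) [Group G], Group.IsSolvable G → C G)
    (hGL : C (Matrix.GeneralLinearGroup (Fin 2) D)) : C ↥(DR (Dh D K)) := by
  classical
  refine of_fg hC fun H hH => ?_
  obtain ⟨T, hT⟩ := (Group.fg_iff_subgroup_fg _).1 hH
  have h1 : ∀ t : ↥(DR (Dh D K)), ∃ S : Finset K, ∀ R : Subring K, (S : Set K) ⊆ R →
      (t : Au K) ∈ (affG ⊤ ⊓ DR R) ⊔ (triG ⊤ ⊓ DR R) := fun t => exists_R (by
        rw [tame_all]
        exact Subgroup.mem_top _)
  choose S hSS using h1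
  obtain ⟨S0, hS0⟩ : ∃ S0 : Finset K, S0 = T.biUnion S := ⟨_, rfl⟩
  obtain ⟨R, hR⟩ : ∃ R : Subring K, R = (Algebra.adjoin ℚ (S0 : Set K)).toSubring := ⟨_, rfl⟩
  have hSR : (S0 : Set K) ⊆ R := by
    rw [hR]
    exact Algebra.subset_adjoin
  have hHR : ∀ h ∈ H, (h : Au K) ∈ (affG ⊤ ⊓ DR R) ⊔ (triG ⊤ ⊓ DR R) := by
    intro h hh
    rw [← hT] at hh
    induction hh using Subgroup.closure_induction with
    | mem x hx =>
      refine hSS x R (subset_trans ?_ hSR)
      rw [hS0]
      exact Finset.coe_subset.2 (Finset.subset_biUnion_of_mem S hx)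
    | one => exact one_mem _
    | mul x y _ _ hx hy => exact mul_mem hx hy
    | inv x _ hx => exact inv_mem hx
  obtain ⟨A, hAdef⟩ : ∃ A : Subgroup (Au K), A = affG ⊤ ⊓ DR R := ⟨_, rfl⟩
  obtain ⟨B, hBdef⟩ : ∃ B : Subgroup (Au K), B = triG ⊤ ⊓ DR R := ⟨_, rfl⟩
  have hpair : Pair A B := by
    rw [hAdef, hBdef]
    exact pair_R (DR R)
  have hHAB : ∀ h ∈ H, (h : Au K) ∈ A ⊔ B := by
    rw [hAdef, hBdef]
    exact hHR
  let f : H →* GG A B :=
    { toFun := fun h => ⟨((h : ↥(DR (Dh D K))) : Au K), hHAB h h.2⟩
      map_one' := rfl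
      map_mul' := fun _ _ => rfl }
  have hf : Function.Injective f := by
    intro x y hxy
    have := congrArg Subtype.val hxy
    exact Subtype.ext (Subtype.ext this)
  have hmem : ∀ y : f.range, ((y : GG A B) : Au K) ∈ DR (Dh D K) := by
    rintro ⟨_, x, rfl⟩
    exact (x : ↥(DR (Dh D K))).2
  have hfg : Group.FG f.range := Group.fg_of_surjective f.rangeRestrict_surjective
  have hrange : C f.range := by
    refine hAc f.range (Vt A B) (tr A B) hfg (tr_tree hpair)
      (fun g u v huv => tr_act (g : GG A B) u v huv)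
      (fun g u v huv => tr_inv (g : GG A B) u v huv)
      ⟨7, {z : K | z ∈ Algebra.adjoin ℚ (S0 : Set K) ∧ ∃ n : ℕ, 0 < n ∧ z ^ n = 1}.ncard, ?_⟩
      fun v => ?_
    · intro u w p hp hlen F hF
      have h1 := acyl hpair {z : K | z ∈ Algebra.adjoin ℚ (S0 : Set K) ∧ ∃ n : ℕ, 0 < n ∧ z ^ n = 1}
        (fin_mu S0) (by
          intro t ht n hn htn
          rw [hBdef] at ht
          refine ⟨?_, n, hn, htn⟩
          have := (mem_SR.1 (ht.2.1 1)) (Finsupp.single 1 1)
          rw [hR] at this
          exact this) u w p hp hlen (F.map ⟨Subtype.val, Subtype.val_injective⟩) (by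
        intro g hg x hx
        rw [Finset.mem_map] at hg
        obtain ⟨g', hg', rfl⟩ := hg
        exact hF g' hg' x hx)
      rwa [Finset.card_map] at h1
    · rcases cases_v v with ⟨x, rfl⟩ | ⟨x, rfl⟩
      · let φ : ↥(MulAction.stabilizer f.range (vA A B x)) →* SG D (x : Au K) :=
          { toFun := fun y => ⟨(((y : f.range) : GG A B) : Au K), hmem _, by
              have h2 : ((y : f.range) : GG A B) • vA A B x = vA A B x := y.2
              have h3 := hpair.hA (fixA h2)
              change MulAut.conj (x : Au K)⁻¹ (((y : f.range) : GG A B) : Au K) ∈ affG (⊤ : Subfield K)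
              rw [MulAut.conj_apply, inv_inv]
              exact h3⟩
            map_one' := rfl
            map_mul' := fun _ _ => rfl }
        refine hC.base.of_injective _ _ φ ?_ (C_SG hC hS hGL _)
        intro y z hyz
        have := congrArg Subtype.val hyz
        exact Subtype.ext (Subtype.ext (Subtype.ext this))
      · let φ : ↥(MulAction.stabilizer f.range (vB A B x)) →* triG (⊤ : Subfield K) :=
          { toFun := fun y => ⟨(x : Au K)⁻¹ * (((y : f.range) : GG A B) : Au K) * (x : Au K), by
              have h2 : ((y : f.range) : GG A B) • vB A B x = vB A B x := y.2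
              exact hpair.hB (fixB h2)⟩
            map_one' := by
              apply Subtype.ext
              change (x : Au K)⁻¹ * 1 * (x : Au K) = 1
              group
            map_mul' := fun y z => by
              apply Subtype.ext
              change (x : Au K)⁻¹ * ((((y : f.range) : GG A B) : Au K) *
                (((z : f.range) : GG A B) : Au K)) * (x : Au K) =
                ((x : Au K)⁻¹ * (((y : f.range) : GG A B) : Au K) * (x : Au K)) *
                ((x : Au K)⁻¹ * (((z : f.range) : GG A B) : Au K) * (x : Au K))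
              group }
        refine hC.base.of_injective _ _ φ ?_ (hS _ tri_solvable)
        intro y z hyz
        have h2 := congrArg Subtype.val hyz
        have h3 : (x : Au K)⁻¹ * (((y : f.range) : GG A B) : Au K) * (x : Au K) =
            (x : Au K)⁻¹ * (((z : f.range) : GG A B) : Au K) * (x : Au K) := h2
        have h4 := mul_left_cancel (mul_right_cancel h3)
        exact Subtype.ext (Subtype.ext (Subtype.ext h4))
  exact hC.base.of_injective _ _ f.rangeRestrict
    (fun x y hxy => hf (congrArg Subtype.val hxy)) hrange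

end

/-- **Automorphisms of `D[x, y]`, `D` a principal ideal domain of characteristic zero.** -/
theorem main_pid (hC : ClosedE C) (hAc : AcylF C)
    (hS : ∀ (G : Type) [Group G], Group.IsSolvable G → C G)
    (D : Type) [CommRing D] [IsDomain D] [IsPrincipalIdealRing D] [CharZero D]
    (hGL : C (Matrix.GeneralLinearGroup (Fin 2) D)) : C (An (Fin 2) D) := by
  have hinj : Function.Injective (algebraMap D (FractionRing D)) := IsFractionRing.injective _ _
  have : CharZero (FractionRing D) := charZero_of_injective_algebraMap hinj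
  have hSR : ∀ P : MvPolynomial (Fin 2) D,
      map (algebraMap D (FractionRing D)) P ∈ SR (Dh D (FractionRing D)) := by
    intro P
    rw [mem_SR]
    intro m
    rw [coeff_map]
    exact ⟨_, rfl⟩
  let f : An (Fin 2) D →* ↥(DR (Dh D (FractionRing D))) :=
    { toFun := fun g => ⟨bc (algebraMap D (FractionRing D)) g, fun i => by
        change bc (algebraMap D (FractionRing D)) g (X i) ∈ _
        rw [bc_X]
        exact hSR _, fun i => by
        have h1 : (bc (algebraMap D (FractionRing D)) g)⁻¹ =
          bc (algebraMap D (FractionRing D)) g⁻¹ := (map_inv _ _).symm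
        change (bc (algebraMap D (FractionRing D)) g)⁻¹ (X i) ∈ _
        rw [h1, bc_X]
        exact hSR _⟩
      map_one' := Subtype.ext (map_one _)
      map_mul' := fun x y => Subtype.ext (map_mul _ _ _) }
  refine hC.base.of_injective _ _ f ?_ (C_DR (K := FractionRing D) hC hAc hS hGL)
  intro x y hxy
  exact bc_injective hinj (congrArg Subtype.val hxy)

end Pool.Agent.U293.FC
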